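import Pool.Agent.Helper12.XG.St

set_option autoImplicit false

namespace Pool.Agent.Helper30.XG

open Finset Polynomial Pool.Agent.Helper12.XG Pool.Agent.Helper14.GS

/-- **TOI** (the bound of TOP for the integrals). -/
theorem hTOI (h : StTOP) : Pool.Agent.Helper12.XG.StTOI := by
  intro hh q M i N β Bd hB hm hN
  have hBd : 0 ≤ Bd := le_trans (abs_nonneg _) (hB 0 0)
  have hN' : 4 * ((hh : ℝ) + 1) ≤ (N : ℝ) := by exact_mod_cast hN
  have hh0 : (0 : ℝ) ≤ (hh : ℝ) := Nat.cast_nonneg _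
  have hNpos : (0 : ℝ) < (N : ℝ) := by linarith
  have key : ∀ x ∈ Set.uIoc (0 : ℝ) 1,
      ‖x ^ (2 * q) * (1 - x) ^ (2 * q) * fI hh q β i ((N : ℝ) + x)‖ ≤
        2 * ((hh : ℝ) + 1) * Bd * 2 ^ i * (2 * ((hh : ℝ) + 1) / N) ^ M := by
    intro x hx
    rw [Set.uIoc_of_le (zero_le_one)] at hx
    obtain ⟨hx0, hx1⟩ := hx
    have h1 : |fI hh q β i ((N : ℝ) + x)| ≤
        2 * ((hh : ℝ) + 1) * Bd * 2 ^ i * (2 * ((hh : ℝ) + 1) / ((N : ℝ) + x)) ^ M :=
      h hh q M i β Bd ((N : ℝ) + x) hB hm (by linarith)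
    have h2 : (2 * ((hh : ℝ) + 1) / ((N : ℝ) + x)) ^ M ≤ (2 * ((hh : ℝ) + 1) / N) ^ M := by
      apply pow_le_pow_left₀ (by positivity)
      apply div_le_div_of_nonneg_left (by positivity) hNpos (by linarith)
    have h3 : 0 ≤ x ^ (2 * q) * (1 - x) ^ (2 * q) :=
      mul_nonneg (pow_nonneg hx0.le _) (pow_nonneg (by linarith) _)
    have h4 : x ^ (2 * q) * (1 - x) ^ (2 * q) ≤ 1 :=
      mul_le_one₀ (pow_le_one₀ hx0.le hx1) (pow_nonneg (by linarith) _)
        (pow_le_one₀ (by linarith) (by linarith))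
    rw [norm_mul, Real.norm_eq_abs, Real.norm_eq_abs, abs_of_nonneg h3]
    calc x ^ (2 * q) * (1 - x) ^ (2 * q) * |fI hh q β i ((N : ℝ) + x)|
        ≤ 1 * |fI hh q β i ((N : ℝ) + x)| := mul_le_mul_of_nonneg_right h4 (abs_nonneg _)
      _ = |fI hh q β i ((N : ℝ) + x)| := one_mul _
      _ ≤ _ := h1
      _ ≤ _ := mul_le_mul_of_nonneg_left h2 (by positivity)
  have := intervalIntegral.norm_integral_le_of_norm_le_const key
  rw [Real.norm_eq_abs, sub_zero, abs_one, mul_one] at this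
  exact this

end Pool.Agent.Helper30.XG
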